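import Pool.Agent.W125.DimDefs
import Pool.Agent.H671R2.ZDefs

/-!
# The graph isomorphism problem for comparability graphs of dimension at most three
-/

set_option autoImplicit false

namespace Pool.Agent.Y815.GI

open Pool.Agent.NPC Pool.Agent.NPC.R671 Pool.Agent.W125.Dim

/-- The graph isomorphism problem: the input consists of the adjacency matrices of two finite
graphs, and the question is whether the graphs are isomorphic. -/
def GraphIso (p : List (List Bool) × List (List Bool)) : Prop :=
  ∃ (n m : ℕ) (X : SimpleGraph (Fin n)) (Y : SimpleGraph (Fin m)),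
    adjMatrix X = p.1 ∧ adjMatrix Y = p.2 ∧ Nonempty (X ≃g Y)

/-- The yes-instances of the isomorphism problem for the class `3`-DIM: pairs of adjacency matrices
of isomorphic graphs, both of them comparability graphs of dimension at most `3`. -/
def ThreeDimIso (p : List (List Bool) × List (List Bool)) : Prop :=
  ∃ (n m : ℕ) (X : SimpleGraph (Fin n)) (Y : SimpleGraph (Fin m)),
    adjMatrix X = p.1 ∧ adjMatrix Y = p.2 ∧ KDim 3 X ∧ KDim 3 Y ∧ Nonempty (X ≃g Y)

end Pool.Agent.Y815.GI
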