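import Pool.Agent.Y815.GI.Defs
import Pool.Agent.W125.DimF
import Pool.Agent.H671R2.PolyAuto
import Pool.Agent.NPC.Dec

/-!
# The reduction
-/

set_option autoImplicit false

namespace Pool.Agent.Y815.GI

open Pool.Agent.NPC Pool.Agent.NPC.R671 Pool.Agent.W125.Dim

/-! ### The incidence relation of a graph -/

/-- The vertex `x` is incident with the pair `(i, j)` if it is `i`, or if it is `j` and `i`, `j` are
adjacent. -/
def AX {n : ℕ} (X : SimpleGraph (Fin n)) (x : Fin n) (p : Fin n × Fin n) : Prop :=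
  x = p.1 ∨ (x = p.2 ∧ X.Adj p.1 p.2)

theorem AX_left {n : ℕ} (X : SimpleGraph (Fin n)) (x : Fin n) : ∃ p, AX X x p :=
  ⟨(x, x), Or.inl rfl⟩

theorem AX_right {n : ℕ} (X : SimpleGraph (Fin n)) (p : Fin n × Fin n) : ∃ x, AX X x p :=
  ⟨p.1, Or.inl rfl⟩

theorem adj_iff_AX {n : ℕ} (X : SimpleGraph (Fin n)) (x y : Fin n) :
    X.Adj x y ↔ x ≠ y ∧ ∃ p, AX X x p ∧ AX X y p := by
  constructor
  · intro h
    exact ⟨h.ne, (x, y), Or.inl rfl, Or.inr ⟨rfl, h⟩⟩
  · rintro ⟨hne, p, h1, h2⟩
    rcases h1 with h1 | ⟨h1, h3⟩ <;> rcases h2 with h2 | ⟨h2, h4⟩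
    · exact absurd (h1.trans h2.symm) hne
    · rw [h1, h2]; exact h4
    · rw [h1, h2]; exact h3.symm
    · exact absurd (h1.trans h2.symm) hne

/-- Isomorphism of graphs and of the constructions. -/
theorem iso_iff {n : ℕ} (X Y : SimpleGraph (Fin n)) {R : ℕ} (hR : 0 < R) :
    Nonempty (X ≃g Y) ↔ Nonempty (XG (AX X) R ≃g XG (AX Y) R) := by
  constructor
  · rintro ⟨φ⟩
    refine ⟨mapIso φ.toEquiv (Equiv.prodCongr φ.toEquiv φ.toEquiv) fun x p => ?_⟩
    show _ ↔ (φ x = φ p.1 ∨ (φ x = φ p.2 ∧ Y.Adj (φ p.1) (φ p.2)))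
    rw [φ.injective.eq_iff, φ.injective.eq_iff, φ.map_adj_iff]
    exact Iff.rfl
  · rintro ⟨ψ⟩
    obtain ⟨α, β, h, -⟩ := iso_struct hR (AX_left X) (AX_right X) (AX_left Y) (AX_right Y) ψ
    refine ⟨⟨α, fun {x y} => ?_⟩⟩
    rw [adj_iff_AX, adj_iff_AX X]
    constructor
    · rintro ⟨h1, p, h2, h3⟩
      refine ⟨fun h4 => h1 (by rw [h4]), β.symm p, ?_, ?_⟩
      · rw [h, β.apply_symm_apply]; exact h2
      · rw [h, β.apply_symm_apply]; exact h3
    · rintro ⟨h1, p, h2, h3⟩
      exact ⟨fun h4 => h1 (α.injective h4), β p, (h _ _).1 h2, (h _ _).1 h3⟩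

/-! ### The computation -/

/-- labels of vertices -/
abbrev Lb := ℕ × ℕ × ℕ × ℕ × ℕ

/-- entries of a matrix -/
def ent (M : List (List Bool)) (i j : ℕ) : Bool := (M.getD i []).getD j false

/-- the number of gadgets -/
def RR (n : ℕ) : ℕ := n * n * (n + 1) + 1

/-- incidence -/
def incB (M : List (List Bool)) (x i j : ℕ) : Bool := decide (x = i) || (decide (x = j) && ent M i j)

/-- the list of the vertices -/
def verts (M : List (List Bool)) : List Lb :=
  (List.range M.length).map (fun x => ((0, 0, x, 0, 0) : Lb)) ++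
  ((List.range M.length ×ˢ List.range M.length).map (fun p => ((1, 0, 0, p.1, p.2) : Lb)) ++
  ((List.range (6 * RR M.length + 2) ×ˢ
      (List.range M.length ×ˢ (List.range M.length ×ˢ List.range M.length))).filter
        (fun q => incB M q.2.1 q.2.2.1 q.2.2.2)).map (fun q => ((2, q.1, q.2.1, q.2.2.1, q.2.2.2) : Lb)))

/-- the relation of levels -/
def crelB (l k : ℕ) (s : Bool) : Bool :=
  (decide (l % 2 = 0) && (s && (decide (k = l + 1) || decide (l = k + 1)))) ||
    (decide (l % 6 = 0) && decide (k = l + 5))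

/-- the order -/
def relB (R : ℕ) (a b : Lb) : Bool :=
  (decide (a.1 = 2) && (decide (b.1 = 2) && crelB a.2.1 b.2.1 (decide (a.2.2 = b.2.2)))) ||
  ((decide (a.1 = 2) && (decide (b.1 = 0) && (decide (a.2.1 = 0) && decide (a.2.2.1 = b.2.2.1)))) ||
  (decide (a.1 = 1) && (decide (b.1 = 2) && (decide (b.2.1 = 6 * R + 1) &&
    decide (a.2.2.2 = b.2.2.2)))))

/-- adjacency -/
def adB (R : ℕ) (a b : Lb) : Bool := relB R a b || relB R b a

/-- the output matrix -/
def out (M : List (List Bool)) : List (List Bool) :=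
  (verts M).map (fun u => (verts M).map (fun w => adB (RR M.length) u w))

theorem adB_symm (R : ℕ) (a b : Lb) : adB R a b = adB R b a := Bool.or_comm _ _

theorem adB_irrefl (R : ℕ) (a : Lb) : adB R a a = false := by
  have h : relB R a a = false := by
    rw [Bool.eq_false_iff]
    intro h
    simp only [relB, crelB, Bool.or_eq_true, Bool.and_eq_true, decide_eq_true_eq] at h
    omega
  rw [adB, h]
  rfl

/-! ### Correctness -/

section

variable {n : ℕ} (X : SimpleGraph (Fin n)) (R : ℕ)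

/-- the label of a vertex -/
def code : Vtx (AX X) R → Lb
  | Vtx.u x => (0, 0, x, 0, 0)
  | Vtx.w p => (1, 0, 0, p.1, p.2)
  | Vtx.c l e => (2, l, e.1.1, e.1.2.1, e.1.2.2)

theorem code_inj : Function.Injective (code X R) := by
  intro a b h
  match a, b with
  | Vtx.u x, Vtx.u y =>
    simp only [code, Prod.mk.injEq, true_and, and_true] at h
    rw [Fin.ext h]
  | Vtx.w p, Vtx.w q =>
    simp only [code, Prod.mk.injEq, true_and] at h
    rw [show p = q from Prod.ext (Fin.ext h.1) (Fin.ext h.2)]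
  | Vtx.c l e, Vtx.c k f =>
    simp only [code, Prod.mk.injEq, true_and] at h
    obtain ⟨h1, h2, h3, h4⟩ := h
    have he : e = f := Subtype.ext (Prod.ext (Fin.ext h2) (Prod.ext (Fin.ext h3) (Fin.ext h4)))
    rw [Fin.ext h1, he]
  | Vtx.u x, Vtx.w q => exact absurd (congrArg Prod.fst h) (by simp [code])
  | Vtx.u x, Vtx.c k f => exact absurd (congrArg Prod.fst h) (by simp [code])
  | Vtx.w p, Vtx.u y => exact absurd (congrArg Prod.fst h) (by simp [code])
  | Vtx.w p, Vtx.c k f => exact absurd (congrArg Prod.fst h) (by simp [code])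
  | Vtx.c l e, Vtx.u y => exact absurd (congrArg Prod.fst h) (by simp [code])
  | Vtx.c l e, Vtx.w q => exact absurd (congrArg Prod.fst h) (by simp [code])

theorem relB_code (a b : Vtx (AX X) R) :
    relB R (code X R a) (code X R b) = true ↔ Pool.Agent.W125.Dim.Rel a b := by
  match a, b with
  | Vtx.u x, Vtx.u y =>
    show _ ↔ False
    simp [relB, code]
  | Vtx.u x, Vtx.w q =>
    show _ ↔ False
    simp [relB, code]
  | Vtx.u x, Vtx.c k f =>
    show _ ↔ False
    simp [relB, code]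
  | Vtx.w p, Vtx.u y =>
    show _ ↔ False
    simp [relB, code]
  | Vtx.w p, Vtx.w q =>
    show _ ↔ False
    simp [relB, code]
  | Vtx.c l e, Vtx.w q =>
    show _ ↔ False
    simp [relB, code]
  | Vtx.w p, Vtx.c k f =>
    show _ ↔ (k : ℕ) = 6 * R + 1 ∧ f.1.2 = p
    have h : ((p.1 : ℕ) = f.1.2.1 ∧ (p.2 : ℕ) = f.1.2.2) ↔ f.1.2 = p := by
      constructor
      · rintro ⟨h1, h2⟩
        exact Prod.ext (Fin.ext h1.symm) (Fin.ext h2.symm)
      · rintro h
        rw [h]
        exact ⟨rfl, rfl⟩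
    simp only [relB, code]
    simp [h]
  | Vtx.c l e, Vtx.u y =>
    show _ ↔ (l : ℕ) = 0 ∧ e.1.1 = y
    have h : (e.1.1 : ℕ) = y ↔ e.1.1 = y := Fin.ext_iff.symm
    simp only [relB, code]
    simp [h]
  | Vtx.c l e, Vtx.c k f =>
    show _ ↔ crel l k (e = f)
    have h : (((e.1.1 : ℕ), (e.1.2.1 : ℕ), (e.1.2.2 : ℕ)) = ((f.1.1 : ℕ), (f.1.2.1 : ℕ),
        (f.1.2.2 : ℕ))) ↔ e = f := by
      constructor
      · intro h
        simp only [Prod.mk.injEq] at h
        exact Subtype.ext (Prod.ext (Fin.ext h.1) (Prod.ext (Fin.ext h.2.1) (Fin.ext h.2.2)))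
      · rintro rfl; rfl
    simp only [relB, crelB, code, crel]
    simp only [h]
    simp

theorem adB_code (a b : Vtx (AX X) R) :
    adB R (code X R a) (code X R b) = true ↔ (XG (AX X) R).Adj a b := by
  unfold adB
  rw [Bool.or_eq_true, relB_code, relB_code]
  exact Iff.rfl

end

theorem length_adjMatrix {n : ℕ} (X : SimpleGraph (Fin n)) : (adjMatrix X).length = n := by
  simp [adjMatrix]

theorem ent_adjMatrix {n : ℕ} (X : SimpleGraph (Fin n)) (i j : Fin n) :
    ent (adjMatrix X) i j = true ↔ X.Adj i j := by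
  unfold ent adjMatrix
  simp

theorem incB_iff {n : ℕ} (X : SimpleGraph (Fin n)) (x i j : Fin n) :
    incB (adjMatrix X) x i j = true ↔ AX X x (i, j) := by
  unfold incB AX
  rw [Bool.or_eq_true, Bool.and_eq_true, ent_adjMatrix, decide_eq_true_eq, decide_eq_true_eq,
    Fin.ext_iff, Fin.ext_iff]

theorem mem_verts {n : ℕ} (X : SimpleGraph (Fin n)) (z : Lb) :
    z ∈ verts (adjMatrix X) ↔ ∃ a, code X (RR n) a = z := by
  unfold verts
  rw [length_adjMatrix]
  simp only [List.mem_append, List.mem_map, List.mem_range, List.mem_product, List.mem_filter,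
    Prod.exists]
  constructor
  · rintro (⟨x, hx, rfl⟩ | ⟨i, j, ⟨hi, hj⟩, rfl⟩ | ⟨l, x, i, j, ⟨⟨hl, hx, hi, hj⟩, hinc⟩, rfl⟩)
    · exact ⟨Vtx.u ⟨x, hx⟩, rfl⟩
    · exact ⟨Vtx.w (⟨i, hi⟩, ⟨j, hj⟩), rfl⟩
    · exact ⟨Vtx.c ⟨l, hl⟩ ⟨(⟨x, hx⟩, (⟨i, hi⟩, ⟨j, hj⟩)),
        (incB_iff X ⟨x, hx⟩ ⟨i, hi⟩ ⟨j, hj⟩).1 hinc⟩, rfl⟩
  · rintro ⟨a, rfl⟩
    match a with
    | Vtx.u x => exact Or.inl ⟨x, x.2, rfl⟩
    | Vtx.w p => exact Or.inr (Or.inl ⟨p.1, p.2, ⟨p.1.2, p.2.2⟩, rfl⟩)
    | Vtx.c l e =>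
      exact Or.inr (Or.inr ⟨l, e.1.1, e.1.2.1, e.1.2.2, ⟨⟨l.2, e.1.1.2, e.1.2.1.2, e.1.2.2.2⟩,
        (incB_iff X _ _ _).2 e.2⟩, rfl⟩)

theorem nodup_verts (M : List (List Bool)) : (verts M).Nodup := by
  unfold verts
  have hr : ∀ k : ℕ, (List.range k).Nodup := fun k => List.nodup_range
  refine List.Nodup.append ?_ (List.Nodup.append ?_ ?_ ?_) ?_
  · refine (hr _).map fun a b h => ?_
    simp only [Prod.mk.injEq, true_and, and_true] at h
    exact h
  · refine (List.Nodup.product (hr _) (hr _)).map fun a b h => ?_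
    simp only [Prod.mk.injEq, true_and] at h
    exact Prod.ext h.1 h.2
  · refine ((List.Nodup.product (hr _) (List.Nodup.product (hr _)
      (List.Nodup.product (hr _) (hr _)))).filter _).map fun a b h => ?_
    simp only [Prod.mk.injEq, true_and] at h
    exact Prod.ext h.1 (Prod.ext h.2.1 (Prod.ext h.2.2.1 h.2.2.2))
  · intro z h1 h2
    rw [List.mem_map] at h1 h2
    obtain ⟨p, _, rfl⟩ := h1
    obtain ⟨q, _, h3⟩ := h2
    exact absurd (congrArg Prod.fst h3) (by simp)
  · intro z h1 h2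
    rw [List.mem_map] at h1
    rw [List.mem_append, List.mem_map, List.mem_map] at h2
    obtain ⟨p, _, rfl⟩ := h1
    rcases h2 with ⟨q, _, h3⟩ | ⟨q, _, h3⟩
    · exact absurd (congrArg Prod.fst h3) (by simp)
    · exact absurd (congrArg Prod.fst h3) (by simp)

/-- The output is the adjacency matrix of a graph isomorphic to the construction. -/
theorem out_eq {n : ℕ} (X : SimpleGraph (Fin n)) : ∃ (N : ℕ) (X' : SimpleGraph (Fin N)),
    adjMatrix X' = out (adjMatrix X) ∧ Nonempty (X' ≃g XG (AX X) (RR n)) := by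
  obtain ⟨e, he⟩ := exists_equiv (verts (adjMatrix X)) (nodup_verts _) (code X (RR n))
    (code_inj X (RR n)) (mem_verts X)
  refine ⟨_, listGraph (verts (adjMatrix X)) (adB (RR n)) (adB_symm _) (adB_irrefl _), ?_, ⟨⟨e, ?_⟩⟩⟩
  · rw [adjMatrix_listGraph]
    unfold out
    rw [length_adjMatrix]
  · intro a b
    rw [← adB_code, he, he]
    exact Iff.rfl

theorem kdim_XG {n : ℕ} (X : SimpleGraph (Fin n)) : KDim 3 (XG (AX X) (RR n)) := by
  obtain ⟨N⟩ := exists_num (U := Fin n) (W := Fin n × Fin n) (R := RR n) (by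
    rw [Nat.card_prod, Nat.card_eq_fintype_card, Fintype.card_fin]
    exact Nat.le_succ _)
  exact XG_kdim N

/-- small graphs -/
theorem kdim_small {n : ℕ} (X : SimpleGraph (Fin n)) (hn : n ≤ 1) : KDim 3 X := by
  refine ⟨inferInstance, fun x y => ?_, fun _ => inferInstance, fun x y => ?_⟩
  · have hxy : x = y := Fin.ext (by omega)
    subst hxy
    simp
  · simp

/-! ### Valid inputs -/

/-- validity of an adjacency matrix -/
def valid (M : List (List Bool)) : Bool :=
  M.all (fun r => decide (r.length = M.length)) &&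
  ((List.range M.length).all (fun i => (List.range M.length).all
    (fun j => decide (ent M i j = ent M j i))) &&
  (List.range M.length).all (fun i => !(ent M i i)))

theorem valid_iff (M : List (List Bool)) :
    valid M = true ↔ ∃ (n : ℕ) (X : SimpleGraph (Fin n)), adjMatrix X = M := by
  constructor
  · intro h
    simp only [valid, Bool.and_eq_true, List.all_eq_true, List.mem_range, decide_eq_true_eq,
      Bool.not_eq_true'] at h
    obtain ⟨h1, h2, h3⟩ := h
    refine ⟨M.length, ⟨fun i j => ent M i j = true, ⟨fun i j hij => ?_⟩, ⟨fun i hi => ?_⟩⟩, ?_⟩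
    · show ent M j i = true
      rw [← h2 i i.2 j j.2]; exact hij
    · rw [h3 i i.2] at hi
      exact absurd hi (by simp)
    · unfold adjMatrix
      apply List.ext_getElem
      · simp
      · intro i hi hi'
        have hlen : (M[i]).length = M.length := h1 _ (List.getElem_mem _)
        apply List.ext_getElem
        · simp [hlen]
        · intro j hj hj'
          simp only [List.getElem_ofFn]
          have h4 : ent M i j = (M[i])[j] := by
            unfold ent
            rw [List.getD_eq_getElem _ _ hi', List.getD_eq_getElem _ _ hj']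
          rw [← h4]
          exact Bool.eq_iff_iff.2 ⟨fun h => @of_decide_eq_true _ (Classical.propDecidable _) h,
            fun h => @decide_eq_true _ (Classical.propDecidable _) h⟩
  · rintro ⟨n, X, rfl⟩
    simp only [valid, Bool.and_eq_true, List.all_eq_true, List.mem_range, decide_eq_true_eq,
      Bool.not_eq_true', length_adjMatrix]
    refine ⟨?_, ?_, ?_⟩
    · intro r hr
      unfold adjMatrix at hr
      rw [List.mem_ofFn] at hr
      obtain ⟨i, rfl⟩ := hr
      simp
    · intro i hi j hj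
      have h1 := ent_adjMatrix X ⟨i, hi⟩ ⟨j, hj⟩
      have h2 := ent_adjMatrix X ⟨j, hj⟩ ⟨i, hi⟩
      rw [X.adj_comm] at h1
      exact Bool.eq_iff_iff.2 (h1.trans h2.symm)
    · intro i hi
      have h1 := ent_adjMatrix X ⟨i, hi⟩ ⟨i, hi⟩
      rw [Bool.eq_false_iff]
      intro h2
      exact (h1.1 h2).ne rfl

/-- the reduction -/
def red (p : List (List Bool) × List (List Bool)) : List (List Bool) × List (List Bool) :=
  if (valid p.1 = true ∧ valid p.2 = true) ∧ p.1.length = p.2.length then (out p.1, out p.2)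
  else ([], [[false]])

theorem red_spec (p : List (List Bool) × List (List Bool)) :
    ∃ (N M : ℕ) (X' : SimpleGraph (Fin N)) (Y' : SimpleGraph (Fin M)),
      red p = (adjMatrix X', adjMatrix Y') ∧ KDim 3 X' ∧ KDim 3 Y' ∧
        (GraphIso p ↔ Nonempty (X' ≃g Y')) := by
  by_cases h : (valid p.1 = true ∧ valid p.2 = true) ∧ p.1.length = p.2.length
  · obtain ⟨p1, p2⟩ := p
    obtain ⟨⟨h1, h2⟩, h3⟩ := h
    rw [valid_iff] at h1 h2
    obtain ⟨n, X, rfl⟩ := h1
    obtain ⟨m, Y, rfl⟩ := h2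
    rw [length_adjMatrix, length_adjMatrix] at h3
    subst h3
    obtain ⟨N, X', hX', ⟨φ⟩⟩ := out_eq X
    obtain ⟨M, Y', hY', ⟨ψ⟩⟩ := out_eq Y
    refine ⟨N, M, X', Y', ?_, (kdim_XG X).of_iso φ.symm, (kdim_XG Y).of_iso ψ.symm, ?_⟩
    · unfold red
      rw [if_pos ⟨⟨(valid_iff _).2 ⟨n, X, rfl⟩, (valid_iff _).2 ⟨n, Y, rfl⟩⟩, by
        rw [length_adjMatrix, length_adjMatrix]⟩, hX', hY']
    · have h5 : GraphIso (adjMatrix X, adjMatrix Y) ↔ Nonempty (X ≃g Y) := by
        constructor
        · rintro ⟨n', m', X₁, Y₁, e1, e2, h⟩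
          have hn' : n' = n := by
            rw [← length_adjMatrix X₁, e1, length_adjMatrix]
          have hm' : m' = n := by
            rw [← length_adjMatrix Y₁, e2, length_adjMatrix]
          subst hn'
          subst hm'
          rw [adjMatrix_inj e1, adjMatrix_inj e2] at h
          exact h
        · intro h
          exact ⟨n, n, X, Y, rfl, rfl, h⟩
      rw [h5, iso_iff X Y (R := RR n) (Nat.succ_pos _)]
      constructor
      · rintro ⟨χ⟩
        exact ⟨φ.trans (χ.trans ψ.symm)⟩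
      · rintro ⟨χ⟩
        exact ⟨φ.symm.trans (χ.trans ψ)⟩
  · refine ⟨0, 1, ⊥, ⊥, ?_, kdim_small _ (by norm_num), kdim_small _ le_rfl, ?_⟩
    · unfold red
      rw [if_neg h]
      simp [adjMatrix]
    · constructor
      · rintro ⟨n, m, X, Y, h1, h2, ⟨φ⟩⟩
        exfalso
        apply h
        refine ⟨⟨(valid_iff _).2 ⟨n, X, h1⟩, (valid_iff _).2 ⟨m, Y, h2⟩⟩, ?_⟩
        rw [← h1, ← h2, length_adjMatrix, length_adjMatrix]
        have := Fintype.card_congr φ.toEquiv
        simpa using this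
      · rintro ⟨φ⟩
        exact (φ.symm 0).elim0

/-! ### Polynomial time -/

section

variable {α : Type} [TEnc α]

@[fun_prop]
theorem poly_ent {f : α → List (List Bool)} {g h : α → ℕ} (hf : Poly f)
    (hg : Poly g) (hh : Poly h) : Poly (fun a => ent (f a) (g a) (h a)) := by
  unfold ent
  fun_prop

@[fun_prop]
theorem poly_incB {f : α → List (List Bool)} {x g h : α → ℕ} (hf : Poly f) (hx : Poly x)
    (hg : Poly g) (hh : Poly h) : Poly (fun a => incB (f a) (x a) (g a) (h a)) := by
  unfold incB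
  fun_prop

theorem uPoly_RR {f : α → List (List Bool)} (hf : Poly f) :
    UPoly (fun a => 6 * RR (f a).length + 2) := by
  have h1 : UPoly (fun a => (f a).length) := UPoly.length hf
  exact ((UPoly.const 6).mul ((((h1.mul h1).mul (h1.add (UPoly.const 1))).add
    (UPoly.const 1)))).add (UPoly.const 2)

@[fun_prop]
theorem poly_range_RR {f : α → List (List Bool)} (hf : Poly f) :
    Poly (fun a => List.range (6 * RR (f a).length + 2)) := (uPoly_RR hf).range

@[fun_prop]
theorem poly_range_len {f : α → List (List Bool)} (hf : Poly f) :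
    Poly (fun a => List.range (f a).length) := Poly.range_length hf

@[fun_prop]
theorem poly_verts {f : α → List (List Bool)} (hf : Poly f) : Poly (fun a => verts (f a)) := by
  unfold verts
  fun_prop

@[fun_prop]
theorem poly_crelB {l k : α → ℕ} {s : α → Bool} (hl : Poly l) (hk : Poly k) (hs : Poly s) :
    Poly (fun a => crelB (l a) (k a) (s a)) := by
  unfold crelB
  fun_prop

@[fun_prop]
theorem poly_relB {R : α → ℕ} {a b : α → Lb} (hR : Poly R) (ha : Poly a) (hb : Poly b) :
    Poly (fun x => relB (R x) (a x) (b x)) := by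
  unfold relB
  fun_prop

@[fun_prop]
theorem poly_adB {R : α → ℕ} {a b : α → Lb} (hR : Poly R) (ha : Poly a) (hb : Poly b) :
    Poly (fun x => adB (R x) (a x) (b x)) := by
  unfold adB
  fun_prop

@[fun_prop]
theorem poly_RR {f : α → List (List Bool)} (hf : Poly f) :
    Poly (fun a => RR (f a).length) := by
  unfold RR
  fun_prop

@[fun_prop]
theorem poly_out {f : α → List (List Bool)} (hf : Poly f) : Poly (fun a => out (f a)) := by
  unfold out
  fun_prop

@[fun_prop]
theorem poly_valid {f : α → List (List Bool)} (hf : Poly f) : Poly (fun a => valid (f a)) := by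
  unfold valid
  fun_prop

end

theorem poly_red : Poly red := by
  unfold red
  fun_prop

/-- The reduction on bit strings. -/
def redBits (x : List Bool) : List (List Bool) × List (List Bool) :=
  (unbits (List (List Bool) × List (List Bool)) x).elim ([], [[false]]) red

theorem poly_redBits : Poly redBits := by
  unfold redBits
  exact NPC.Poly.optElim poly_unbits (NPC.Poly.const _) (poly_red.comp (NPC.Poly.snd NPC.Poly.id))

theorem redBits_spec (x : List Bool) :
    ∃ (N M : ℕ) (X' : SimpleGraph (Fin N)) (Y' : SimpleGraph (Fin M)),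
      redBits x = (adjMatrix X', adjMatrix Y') ∧ KDim 3 X' ∧ KDim 3 Y' ∧
        (x ∈ lang GraphIso ↔ Nonempty (X' ≃g Y')) := by
  unfold redBits
  rw [mem_lang_iff]
  cases h : unbits (List (List Bool) × List (List Bool)) x with
  | none =>
    refine ⟨0, 1, ⊥, ⊥, ?_, kdim_small _ (by norm_num), kdim_small _ le_rfl, ?_⟩
    · simp [adjMatrix]
    · constructor
      · rintro ⟨a, ha, _⟩
        exact absurd ha (by simp)
      · rintro ⟨φ⟩
        exact (φ.symm 0).elim0
  | some p =>
    obtain ⟨N, M, X', Y', h1, h2, h3, h4⟩ := red_spec p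
    refine ⟨N, M, X', Y', h1, h2, h3, ?_⟩
    rw [← h4]
    constructor
    · rintro ⟨a, ha, h5⟩
      rw [Option.some.inj ha]
      exact h5
    · intro h5
      exact ⟨p, rfl, h5⟩

/-- The graph isomorphism problem reduces in polynomial time to the isomorphism problem of graphs
in `3`-DIM. -/
theorem main : ∃ f : List Bool → List Bool, PolyTime f ∧ ∀ x : List Bool,
    ∃ (N M : ℕ) (X' : SimpleGraph (Fin N)) (Y' : SimpleGraph (Fin M)),
      f x = bits (adjMatrix X', adjMatrix Y') ∧ KDim 3 X' ∧ KDim 3 Y' ∧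
        (x ∈ lang GraphIso ↔ Nonempty (X' ≃g Y')) := by
  refine ⟨fun x => bits (redBits x), polyTime_bits poly_redBits, fun x => ?_⟩
  obtain ⟨N, M, X', Y', h1, h2, h3, h4⟩ := redBits_spec x
  exact ⟨N, M, X', Y', congrArg bits h1, h2, h3, h4⟩

/-- The converse reduction, by inclusion. -/
theorem bits_mem {N M : ℕ} (X : SimpleGraph (Fin N)) (Y : SimpleGraph (Fin M)) :
    bits (adjMatrix X, adjMatrix Y) ∈ lang GraphIso ↔ Nonempty (X ≃g Y) := by
  rw [bits_mem_lang]
  constructor
  · rintro ⟨n', m', X₁, Y₁, e1, e2, h⟩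
    have hn' : n' = N := by
      rw [← length_adjMatrix X₁, e1, length_adjMatrix]
    have hm' : m' = M := by
      rw [← length_adjMatrix Y₁, e2, length_adjMatrix]
    subst hn'
    subst hm'
    rw [adjMatrix_inj e1, adjMatrix_inj e2] at h
    exact h
  · intro h
    exact ⟨N, M, X, Y, rfl, rfl, h⟩

/-- The same for the yes-instances of the restricted problem. -/
theorem bits_mem_three {N M : ℕ} (X : SimpleGraph (Fin N)) (Y : SimpleGraph (Fin M))
    (hX : KDim 3 X) (hY : KDim 3 Y) :
    bits (adjMatrix X, adjMatrix Y) ∈ lang ThreeDimIso ↔ Nonempty (X ≃g Y) := by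
  rw [bits_mem_lang]
  constructor
  · rintro ⟨n', m', X₁, Y₁, e1, e2, -, -, h⟩
    have hn' : n' = N := by
      rw [← length_adjMatrix X₁, e1, length_adjMatrix]
    have hm' : m' = M := by
      rw [← length_adjMatrix Y₁, e2, length_adjMatrix]
    subst hn'
    subst hm'
    rw [adjMatrix_inj e1, adjMatrix_inj e2] at h
    exact h
  · intro h
    exact ⟨N, M, X, Y, rfl, rfl, hX, hY, h⟩

theorem reduces : Reduces (lang GraphIso) (lang ThreeDimIso) := by
  obtain ⟨f, hf, h⟩ := main
  refine ⟨f, hf, fun x => ?_⟩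
  obtain ⟨N, M, X', Y', h1, h2, h3, h4⟩ := h x
  rw [h4, h1, bits_mem_three X' Y' h2 h3]

end Pool.Agent.Y815.GI
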